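import Pool.Agent.Helper18.CL.Defs
import Pool.Agent.Helper12.SB.Res

/-!
# CB for a prime `ℓ`, piece R2
-/

set_option autoImplicit false

namespace Pool.Agent.Helper12.CL

open NumberField Polynomial Pool.Agent.Helper4.CB Pool.Agent.Helper18.CL

/-- **R2**: an element of `𝓞 K` prime to `G` is an `ℓ`-th power modulo every power of
`G 𝓞 L`, if no place dividing `G` is bad or divides `ℓ`, and `L` has a primitive `ℓ ^ J`-th root. -/
theorem exists_root (K L : Type) [Field K] [NumberField K] [Field L] [NumberField L] [Algebra K L]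
    (l J : ℕ) (hl : l.Prime) (hζ : ∃ ζ : L, IsPrimitiveRoot ζ (l ^ J)) (G : Ideal (𝓞 K))
    (hG : G ≠ ⊥) (x : 𝓞 K)
    (h : ∀ p : Pl K, G ≤ p.asIdeal → ¬ BadL l J p ∧ (l : 𝓞 K) ∉ p.asIdeal ∧ x ∉ p.asIdeal) (n : ℕ) :
    ∃ y : 𝓞 L, y ^ l - algebraMap (𝓞 K) (𝓞 L) x ∈ (G.map (algebraMap (𝓞 K) (𝓞 L))) ^ n := by
  obtain ⟨ζ, hζ⟩ := hζ
  refine Pool.Agent.Helper12.SB.exists_pow_sub_mem hl hζ hG ?_ n
  intro p hp hGp
  have hp0 : p ≠ ⊥ := by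
    rintro rfl
    exact hG (le_bot_iff.1 hGp)
  obtain ⟨h1, h2, h3⟩ := h ⟨p, hp, hp0⟩ hGp
  exact ⟨h2, h3, h1⟩

end Pool.Agent.Helper12.CL
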